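import Pool.Agent.K3S.Final

/-!
# K3 surfaces of Picard rank two without elliptic fibration: isometries fixing the transcendental
lattice

For a complex projective K3 surface `X` put `Λ = H*(X, ℤ)` with the Mukai pairing `B`,
`e = [X]`, `f = [pt]`, and let `F, G` be a basis of `NS(X)`, with `F² = 2a`, `(F, G) = b`,
`G² = 2c`.  `NS(X)` has signature `(1, 1)` if and only if `b² - 4ac > 0`, and it has an isotropic
vector (`X` has an elliptic fibration) if and only if `b² - 4ac` is a square.  The orthogonal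
complement of `⟨e, f, F, G⟩` is `T(X)`.
-/

namespace Pool.Agent.Results.MP_98be90_ag.AnisotropicRankTwo

/-- `Λ` with the form `B` is a nondegenerate lattice, `e, f` span a hyperbolic plane
(`e² = f² = 0`, `(e, f) = -1`, as `[X]` and `[pt]` for the Mukai pairing), and `F, G` are
orthogonal to `e, f`, with `F² = 2a`, `(F, G) = b`, `G² = 2c`, where `b² - 4ac` is positive and not
a square (`⟨F, G⟩` has signature `(1, 1)` and no isotropic vector), and with dual vectors in `Λ`
(`⟨F, G⟩` is primitive and `Λ` is unimodular). -/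
structure MukaiSetting {Λ : Type} [AddCommGroup Λ] (B : LinearMap.BilinForm ℤ Λ)
    (e f F G : Λ) (a b c : ℤ) : Prop where
  symm : ∀ x y, B x y = B y x
  nondeg : ∀ x, (∀ y, B x y = 0) → x = 0
  ee : B e e = 0
  ff : B f f = 0
  ef : B e f = -1
  eF : B e F = 0
  eG : B e G = 0
  fF : B f F = 0
  fG : B f G = 0
  FF : B F F = 2 * a
  FG : B F G = b
  GG : B G G = 2 * c
  indef : 0 < b ^ 2 - 4 * a * c
  aniso : ¬ IsSquare (b ^ 2 - 4 * a * c)
  prim : ∃ x y, B F x = 1 ∧ B G x = 0 ∧ B F y = 0 ∧ B G y = 1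

/-- `g` is an isometry which is the identity on the orthogonal complement of `⟨e, f, F, G⟩`
(the transcendental lattice `T(X)` if `NS(X) = ⟨F, G⟩`). -/
def FixesT {Λ : Type} [AddCommGroup Λ] (B : LinearMap.BilinForm ℤ Λ) (e f F G : Λ)
    (g : Λ ≃ₗ[ℤ] Λ) : Prop :=
  (∀ x y, B (g x) (g y) = B x y) ∧
    ∀ t, B e t = 0 ∧ B f t = 0 ∧ B F t = 0 ∧ B G t = 0 → g t = t

/-- `g` preserves the orientation of the positive definite plane spanned by `e - f` and `h`:
the orthogonal projection from the image of this plane back to it has positive determinant. -/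
def PreservesOrientation {Λ : Type} [AddCommGroup Λ] (B : LinearMap.BilinForm ℤ Λ) (e f h : Λ)
    (g : Λ ≃ₗ[ℤ] Λ) : Prop :=
  0 < B (g (e - f)) (e - f) * B (g h) h - B (g (e - f)) h * B (g h) (e - f)

/-- `g` is the reflection in a vector `δ` of `⟨e, f, F, G⟩` with `δ² = -2` (the action of a
spherical twist). -/
def IsSphericalReflection {Λ : Type} [AddCommGroup Λ] (B : LinearMap.BilinForm ℤ Λ)
    (e f F G : Λ) (g : Λ ≃ₗ[ℤ] Λ) : Prop :=
  ∃ δ ∈ Submodule.span ℤ {e, f, F, G}, B δ δ = -2 ∧ ∀ x, g x = x + B x δ • δ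

/-- `g` is the Eichler transvection of an isotropic vector `z` and a vector `w` orthogonal to
`z`, both in `⟨e, f, F, G⟩` (for `z = f`: the action of a line bundle twist). -/
def IsEichlerTransvection {Λ : Type} [AddCommGroup Λ] (B : LinearMap.BilinForm ℤ Λ)
    (e f F G : Λ) (g : Λ ≃ₗ[ℤ] Λ) : Prop :=
  ∃ z ∈ Submodule.span ℤ {e, f, F, G}, ∃ w ∈ Submodule.span ℤ {e, f, F, G}, ∃ m : ℤ,
    B z z = 0 ∧ B z w = 0 ∧ B w w = 2 * m ∧
      ∀ x, g x = x + B z x • w - B w x • z - (m * B z x) • z

/-- The orientation preserving isometries of `Λ` which are the identity on the orthogonal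
complement of `⟨e, f, F, G⟩` are exactly the products of reflections in `(-2)`-vectors and of
Eichler transvections of `⟨e, f, F, G⟩`. -/
theorem result : ∀ (Λ : Type) [AddCommGroup Λ] (B : LinearMap.BilinForm ℤ Λ)
    (e f F G : Λ) (a b c : ℤ), MukaiSetting B e f F G a b c →
    ∀ h ∈ Submodule.span ℤ {F, G}, 0 < B h h → ∀ g : Λ ≃ₗ[ℤ] Λ,
      (FixesT B e f F G g ∧ PreservesOrientation B e f h g) ↔
        g ∈ Subgroup.closure
          {k : Λ ≃ₗ[ℤ] Λ | IsSphericalReflection B e f F G k ∨
            IsEichlerTransvection B e f F G k} := by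
  intro Λ _ B e f F G a b c S h hh hpos g
  have : K3S.NS (b ^ 2 - 4 * a * c) := ⟨S.indef, S.aniso⟩
  obtain ⟨x, y, h1, h2, h3, h4⟩ := S.prim
  have fe : B f e = -1 := by rw [S.symm, S.ef]
  have Fe : B F e = 0 := by rw [S.symm, S.eF]
  have Ge : B G e = 0 := by rw [S.symm, S.eG]
  have Ff : B F f = 0 := by rw [S.symm, S.fF]
  have Gf : B G f = 0 := by rw [S.symm, S.fG]
  have S' : K3S.Sit B e f F G (x + B f x • e + B e x • f) (y + B f y • e + B e y • f) a b c :=
    { symm := S.symm, nondeg := S.nondeg, ee := S.ee, ff := S.ff, ef := S.ef, eF := S.eF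
      eG := S.eG, fF := S.fF, fG := S.fG, FF := S.FF, FG := S.FG, GG := S.GG
      ex := by simp only [map_add, map_smul, smul_eq_mul, S.ee, S.ef]; ring
      fx := by simp only [map_add, map_smul, smul_eq_mul, fe, S.ff]; ring
      Fx := by simp only [map_add, map_smul, smul_eq_mul, Fe, Ff, h1]; ring
      Gx := by simp only [map_add, map_smul, smul_eq_mul, Ge, Gf, h2]; ring
      ey := by simp only [map_add, map_smul, smul_eq_mul, S.ee, S.ef]; ring
      fy := by simp only [map_add, map_smul, smul_eq_mul, fe, S.ff]; ring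
      Fy := by simp only [map_add, map_smul, smul_eq_mul, Fe, Ff, h3]; ring
      Gy := by simp only [map_add, map_smul, smul_eq_mul, Ge, Gf, h4]; ring }
  exact K3S.main_iff (b ^ 2 - 4 * a * c) a b c rfl Λ B e f F G _ _ S' h hh hpos g

end Pool.Agent.Results.MP_98be90_ag.AnisotropicRankTwo
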