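import Pool.Agent.K3Ell.Final

/-!
# Elliptic K3 surfaces of Picard rank two: isometries fixing the transcendental lattice

For a complex projective K3 surface `X` put `Λ = H*(X, ℤ)` with the Mukai pairing `B`,
`e = [X]`, `f = [pt]`, and let `F, D` be a basis of a primitive sublattice of rank two of `NS(X)`
with `F² = 0`, `(F, D) = n > 0`, `D² = 2k`. If `X` has Picard rank two, such a basis of `NS(X)`
exists if and only if `X` has an elliptic fibration, and then the orthogonal complement of
`⟨e, f, F, D⟩` is `T(X)`.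
-/

namespace Pool.Agent.Results.MP_98be90_ag.EllipticRankTwo

/-- `Λ` with the form `B` is a nondegenerate lattice, `e, f` span a hyperbolic plane
(`e² = f² = 0`, `(e, f) = -1`, as `[X]` and `[pt]` for the Mukai pairing), and `F, D` are
orthogonal to `e, f`, with `F² = 0`, `(F, D) = n > 0`, `D² = 2k`, and dual vectors in `Λ`
(`⟨F, D⟩` is primitive and `Λ` is unimodular). -/
structure MukaiSetting {Λ : Type} [AddCommGroup Λ] (B : LinearMap.BilinForm ℤ Λ)
    (e f F D : Λ) (n k : ℤ) : Prop where
  symm : ∀ x y, B x y = B y x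
  nondeg : ∀ x, (∀ y, B x y = 0) → x = 0
  ee : B e e = 0
  ff : B f f = 0
  ef : B e f = -1
  eF : B e F = 0
  eD : B e D = 0
  fF : B f F = 0
  fD : B f D = 0
  FF : B F F = 0
  FD : B F D = n
  DD : B D D = 2 * k
  npos : 0 < n
  prim : ∃ x y, B F x = 1 ∧ B D x = 0 ∧ B F y = 0 ∧ B D y = 1

/-- `g` is an isometry which is the identity on the orthogonal complement of `⟨e, f, F, D⟩`
(the transcendental lattice `T(X)` if `NS(X) = ⟨F, D⟩`). -/
def FixesT {Λ : Type} [AddCommGroup Λ] (B : LinearMap.BilinForm ℤ Λ) (e f F D : Λ)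
    (g : Λ ≃ₗ[ℤ] Λ) : Prop :=
  (∀ x y, B (g x) (g y) = B x y) ∧
    ∀ t, B e t = 0 ∧ B f t = 0 ∧ B F t = 0 ∧ B D t = 0 → g t = t

/-- `g` preserves the orientation of the positive definite plane spanned by `e - f` and `h`:
the orthogonal projection from the image of this plane back to it has positive determinant. -/
def PreservesOrientation {Λ : Type} [AddCommGroup Λ] (B : LinearMap.BilinForm ℤ Λ) (e f h : Λ)
    (g : Λ ≃ₗ[ℤ] Λ) : Prop :=
  0 < B (g (e - f)) (e - f) * B (g h) h - B (g (e - f)) h * B (g h) (e - f)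

/-- `g` is the reflection in a vector `δ` of `⟨e, f, F, D⟩` with `δ² = -2` (the action of a
spherical twist). -/
def IsSphericalReflection {Λ : Type} [AddCommGroup Λ] (B : LinearMap.BilinForm ℤ Λ)
    (e f F D : Λ) (g : Λ ≃ₗ[ℤ] Λ) : Prop :=
  ∃ δ ∈ Submodule.span ℤ {e, f, F, D}, B δ δ = -2 ∧ ∀ x, g x = x + B x δ • δ

/-- `g` is an isometry, the identity on `⟨e, f, F, D⟩^⊥`, which maps an isotropic plane
`⟨f, G⟩` with `G` in `⟨F, D⟩` to itself, by a matrix of determinant one (the action of a relative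
Fourier-Mukai autoequivalence of the elliptic fibration with fibre class `G`, up to line bundle
twists). -/
def IsRelative {Λ : Type} [AddCommGroup Λ] (B : LinearMap.BilinForm ℤ Λ) (e f F D : Λ)
    (g : Λ ≃ₗ[ℤ] Λ) : Prop :=
  FixesT B e f F D g ∧ ∃ G ∈ Submodule.span ℤ {F, D}, G ≠ 0 ∧ B G G = 0 ∧
    ∃ a b c d : ℤ, a * d - b * c = 1 ∧ g f = a • f + b • G ∧ g G = c • f + d • G

/-- The orientation preserving isometries of `Λ` which are the identity on the orthogonal
complement of `⟨e, f, F, D⟩` are exactly the products of reflections in `(-2)`-vectors and of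
relative isometries. -/
theorem result : ∀ (Λ : Type) [AddCommGroup Λ] (B : LinearMap.BilinForm ℤ Λ)
    (e f F D : Λ) (n k : ℤ), MukaiSetting B e f F D n k →
    ∀ h ∈ Submodule.span ℤ {F, D}, 0 < B h h → ∀ g : Λ ≃ₗ[ℤ] Λ,
      (FixesT B e f F D g ∧ PreservesOrientation B e f h g) ↔
        g ∈ Subgroup.closure
          {k : Λ ≃ₗ[ℤ] Λ | IsSphericalReflection B e f F D k ∨ IsRelative B e f F D k} := by
  intro Λ _ B e f F D n k S h hh hpos g
  obtain ⟨α, β, rfl⟩ := Submodule.mem_span_pair.mp hh
  obtain ⟨x, y, h1, h2, h3, h4⟩ := S.prim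
  have fe : B f e = -1 := by rw [S.symm, S.ef]
  have Fe : B F e = 0 := by rw [S.symm, S.eF]
  have De : B D e = 0 := by rw [S.symm, S.eD]
  have Ff : B F f = 0 := by rw [S.symm, S.fF]
  have Df : B D f = 0 := by rw [S.symm, S.fD]
  have S' : K3Ell.Sit B e f F D (x + B f x • e + B e x • f) (y + B f y • e + B e y • f) n k :=
    { symm := S.symm, nondeg := S.nondeg, ee := S.ee, ff := S.ff, ef := S.ef, eF := S.eF
      eD := S.eD, fF := S.fF, fD := S.fD, FF := S.FF, FD := S.FD, DD := S.DD, npos := S.npos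
      ex := by simp only [map_add, map_smul, smul_eq_mul, S.ee, S.ef]; ring
      fx := by simp only [map_add, map_smul, smul_eq_mul, fe, S.ff]; ring
      Fx := by simp only [map_add, map_smul, smul_eq_mul, Fe, Ff, h1]; ring
      Dx := by simp only [map_add, map_smul, smul_eq_mul, De, Df, h2]; ring
      ey := by simp only [map_add, map_smul, smul_eq_mul, S.ee, S.ef]; ring
      fy := by simp only [map_add, map_smul, smul_eq_mul, fe, S.ff]; ring
      Fy := by simp only [map_add, map_smul, smul_eq_mul, Fe, Ff, h3]; ring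
      Dy := by simp only [map_add, map_smul, smul_eq_mul, De, Df, h4]; ring }
  exact S'.result α β hpos g

end Pool.Agent.Results.MP_98be90_ag.EllipticRankTwo
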