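import Pool.Agent.K3Aut.Lift

/-!
# Picard rank one K3 surfaces: isometries of the Mukai lattice fixing the transcendental lattice

For a complex projective K3 surface `X` and a primitive class `H` in `NS(X)` with `H² = 2d > 0`
put `Λ = H*(X, ℤ)` with the Mukai pairing `B`, `e = [X]`, `f = [pt]`, `h = H`. The orthogonal
complement of `⟨e, h, f⟩` is `T(X)` if `NS(X) = ℤH`.
-/

namespace Pool.Agent.Results.MP_98be90_ag.PicardRankOne

open Pool.Agent.K3Aut

/-- The 38 values of `d` treated here (the Fricke modular curve `X₀(d)⁺` has genus zero). -/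
def degrees : List ℤ :=
  [1, 2, 3, 4, 5, 6, 7, 8, 9, 10, 11, 12, 13, 14, 15, 16, 17, 18, 19, 20, 21, 23, 24, 25, 26, 27,
    29, 31, 32, 35, 36, 39, 41, 47, 49, 50, 59, 71]

/-- `Λ` with the form `B` is a nondegenerate lattice, `e, f` span a hyperbolic plane
(`e² = f² = 0`, `(e, f) = -1`, as `[X]` and `[pt]` for the Mukai pairing), and `h` is orthogonal
to `e, f`, with `h² = 2d` and `(h, x) = 1` for some `x` (`h` is primitive, `Λ` unimodular). -/
structure MukaiSetting {Λ : Type} [AddCommGroup Λ] (B : LinearMap.BilinForm ℤ Λ)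
    (e f h : Λ) (d : ℤ) : Prop where
  symm : ∀ x y, B x y = B y x
  nondeg : ∀ x, (∀ y, B x y = 0) → x = 0
  ee : B e e = 0
  ff : B f f = 0
  ef : B e f = -1
  eh : B e h = 0
  fh : B f h = 0
  hh : B h h = 2 * d
  prim : ∃ x, B h x = 1

/-- `g` is an isometry which is the identity on the orthogonal complement of `⟨e, f, h⟩`
(the transcendental lattice `T(X)` if `NS(X) = ℤh`). -/
def FixesT {Λ : Type} [AddCommGroup Λ] (B : LinearMap.BilinForm ℤ Λ) (e f h : Λ)
    (g : Λ ≃ₗ[ℤ] Λ) : Prop :=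
  (∀ x y, B (g x) (g y) = B x y) ∧ ∀ t, B e t = 0 ∧ B f t = 0 ∧ B h t = 0 → g t = t

/-- `g` preserves the orientation of the positive definite plane spanned by `e - f` and `h`:
the orthogonal projection from the image of this plane back to it has positive determinant. -/
def PreservesOrientation {Λ : Type} [AddCommGroup Λ] (B : LinearMap.BilinForm ℤ Λ) (e f h : Λ)
    (g : Λ ≃ₗ[ℤ] Λ) : Prop :=
  0 < B (g (e - f)) (e - f) * B (g h) h - B (g (e - f)) h * B (g h) (e - f)

/-- `g` is the reflection in a vector `δ` of `⟨e, f, h⟩` with `δ² = -2` (the action of a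
spherical twist). -/
def IsSphericalReflection {Λ : Type} [AddCommGroup Λ] (B : LinearMap.BilinForm ℤ Λ) (e f h : Λ)
    (g : Λ ≃ₗ[ℤ] Λ) : Prop :=
  ∃ δ ∈ Submodule.span ℤ {e, f, h}, B δ δ = -2 ∧ ∀ x, g x = x + B x δ • δ

/-- `g` is the Eichler transvection of an isotropic vector `z` and a vector `w` orthogonal to
`z`, both in `⟨e, f, h⟩` (for `z = f`: the action of a line bundle twist). -/
def IsEichlerTransvection {Λ : Type} [AddCommGroup Λ] (B : LinearMap.BilinForm ℤ Λ) (e f h : Λ)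
    (g : Λ ≃ₗ[ℤ] Λ) : Prop :=
  ∃ z ∈ Submodule.span ℤ {e, f, h}, ∃ w ∈ Submodule.span ℤ {e, f, h}, ∃ m : ℤ,
    B z z = 0 ∧ B z w = 0 ∧ B w w = 2 * m ∧
      ∀ x, g x = x + B z x • w - B w x • z - (m * B z x) • z

/-- For the 38 values of `d` the orientation preserving isometries of `Λ` which are the identity
on the orthogonal complement of `⟨e, f, h⟩` are exactly the products of reflections in
`(-2)`-vectors and of Eichler transvections of `⟨e, f, h⟩`. -/
theorem result : ∀ d ∈ degrees, ∀ (Λ : Type) [AddCommGroup Λ] (B : LinearMap.BilinForm ℤ Λ)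
    (e f h : Λ), MukaiSetting B e f h d → ∀ g : Λ ≃ₗ[ℤ] Λ,
      (FixesT B e f h g ∧ PreservesOrientation B e f h g) ↔
        g ∈ Subgroup.closure
          {k : Λ ≃ₗ[ℤ] Λ | IsSphericalReflection B e f h k ∨ IsEichlerTransvection B e f h k} := by
  intro d hd Λ _ B e f h S g
  obtain ⟨x₀, hx₀⟩ := S.prim
  exact Sit.main (x₀ := x₀)
    ⟨S.symm, S.nondeg, S.ee, S.ff, S.ef, S.eh, S.fh, S.hh, hx₀⟩ hd g

end Pool.Agent.Results.MP_98be90_ag.PicardRankOne
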